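import Pool.Agent.H73.G.RB.Q82.MD.Stm

/-!
# Project MD (helper82), jobs MOLL and MROC: mollification
-/

set_option autoImplicit false
set_option linter.unusedVariables false

namespace Pool.Agent.Q53.MD

open MeasureTheory Set Filter Topology
open scoped Convolution
open Pool.Agent.W779.Morrey
open Pool.Agent.Q82.MD

/-- MD-7 (MOLL). -/
theorem moll : S_MOLL := by
  intro ε hε
  let f : ContDiffBump (0 : V) := ⟨ε / 2, ε, by positivity, by linarith⟩
  let φ : V → ℝ := f.normed volume
  have hφ : φ = f.normed volume := rfl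
  have hφ0 : ∀ s, 0 ≤ φ s := fun s => f.nonneg_normed s
  have hφc : Continuous φ := f.continuous_normed
  have hφs : ∀ s, φ s ≠ 0 → ‖s‖ < ε := by
    intro s hs
    have h1 : s ∈ Function.support (f.normed volume) := hs
    rw [f.support_normed_eq] at h1
    simpa using h1
  have hφn : ∀ s, φ (-s) = φ s := fun s => f.normed_neg s
  have hmeas : Measurable fun s => ENNReal.ofReal (φ s) := hφc.measurable.ennreal_ofReal
  have hint : ∀ g : V → ℝ, ∫ s, g s ∂(volume.withDensity fun s => ENNReal.ofReal (φ s)) =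
      ∫ s, φ s * g s := by
    intro g
    rw [integral_withDensity_eq_integral_toReal_smul hmeas
      (Eventually.of_forall fun s => ENNReal.ofReal_lt_top)]
    refine integral_congr_ae (Eventually.of_forall fun s => ?_)
    simp only [smul_eq_mul]
    rw [ENNReal.toReal_ofReal (hφ0 s)]
  refine ⟨volume.withDensity fun s => ENNReal.ofReal (φ s), ?_, ?_, ?_, ?_⟩
  · refine ⟨?_⟩
    rw [withDensity_apply _ MeasurableSet.univ, Measure.restrict_univ,
      ← ofReal_integral_eq_lintegral_ofReal f.integrable_normed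
        (Eventually.of_forall fun s => hφ0 s)]
    rw [f.integral_normed, ENNReal.ofReal_one]
  · rw [ae_withDensity_iff hmeas]
    refine Eventually.of_forall fun s hs i => ?_
    have h1 : φ s ≠ 0 := by
      intro h
      apply hs
      rw [h, ENNReal.ofReal_zero]
    exact (norm_le_pi_norm s i).trans (hφs s h1).le
  · intro i
    rw [hint]
    have h1 : ∫ s, φ s * s i = ∫ s : V, φ (-s) * (-s) i :=
      (integral_neg_eq_self (fun s : V => φ s * s i) volume).symm
    have h2 : ∫ s : V, φ (-s) * (-s) i = -∫ s : V, φ s * s i := by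
      rw [← integral_neg]
      refine integral_congr_ae (Eventually.of_forall fun s => ?_)
      simp only [hφn, Pi.neg_apply]
      ring
    linarith
  · intro θ hθ
    have hconv : ∀ y, ∫ s, θ (y + s) ∂(volume.withDensity fun s => ENNReal.ofReal (φ s)) =
        (f.normed volume ⋆[ContinuousLinearMap.lsmul ℝ ℝ, volume] θ) y := by
      intro y
      rw [hint]
      have h1 : ∫ s, φ s * θ (y + s) = ∫ s : V, φ (-s) * θ (y + -s) :=
        (integral_neg_eq_self (fun s : V => φ s * θ (y + s)) volume).symm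
      rw [h1]
      unfold MeasureTheory.convolution
      refine integral_congr_ae (Eventually.of_forall fun s => ?_)
      simp only [hφn, ContinuousLinearMap.lsmul_apply, smul_eq_mul, sub_eq_add_neg]
      rfl
    have h := (f.hasCompactSupport_normed (μ := (volume : Measure V))).contDiff_convolution_left
      (ContinuousLinearMap.lsmul ℝ ℝ) (f.contDiff_normed (n := 2))
      (hθ.locallyIntegrable (μ := (volume : Measure V)))
    have he : (fun y => ∫ s, θ (y + s) ∂(volume.withDensity fun s => ENNReal.ofReal (φ s))) =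
        (f.normed volume ⋆[ContinuousLinearMap.lsmul ℝ ℝ, volume] θ) := by
      funext y
      exact hconv y
    rw [he]
    exact h

/-- the second derivative of a convex function -/
theorem hs_nonneg {ψ : V → ℝ} (hψ : ContDiff ℝ 2 ψ) (y p : V) (c : ℝ)
    (h : ConvexOn ℝ univ fun t : ℝ => ψ (y + t • p) + c * t ^ 2) : 0 ≤ hs ψ y p p + 2 * c := by
  have hd1 : ∀ t : ℝ, HasDerivAt (fun t : ℝ => ψ (y + t • p) + c * t ^ 2)
      (fderiv ℝ ψ (y + t • p) p + c * (2 * t)) t := by
    intro t
    have h1 : HasFDerivAt ψ (fderiv ℝ ψ (y + t • p)) (y + t • p) :=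
      (hψ.differentiable (by norm_num) _).hasFDerivAt
    have h2 : HasDerivAt (fun t : ℝ => y + t • p) p t := by
      simpa using ((hasDerivAt_id t).smul_const p).const_add y
    have h3 := h1.comp_hasDerivAt t h2
    have h4 : HasDerivAt (fun t : ℝ => c * t ^ 2) (c * (2 * t)) t := by
      simpa using (hasDerivAt_pow 2 t).const_mul c
    exact h3.add h4
  have hmono : Monotone (fun t : ℝ => fderiv ℝ ψ (y + t • p) p + c * (2 * t)) := by
    have h1 := h.monotoneOn_deriv fun x _ => (hd1 x).differentiableAt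
    have h2 : deriv (fun t : ℝ => ψ (y + t • p) + c * t ^ 2) =
        fun t : ℝ => fderiv ℝ ψ (y + t • p) p + c * (2 * t) := funext fun t => (hd1 t).deriv
    rw [h2] at h1
    exact monotoneOn_univ.1 h1
  have hd2 : HasDerivAt (fun t : ℝ => fderiv ℝ ψ (y + t • p) p + c * (2 * t))
      (fderiv ℝ (fderiv ℝ ψ) y p p + c * 2) 0 := by
    have h0 : ContDiff ℝ 1 (fderiv ℝ ψ) := hψ.fderiv_right (by norm_num)
    have h1 : HasFDerivAt (fderiv ℝ ψ) (fderiv ℝ (fderiv ℝ ψ) (y + (0 : ℝ) • p))
        (y + (0 : ℝ) • p) := (h0.differentiable (by norm_num) _).hasFDerivAt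
    have h2 : HasDerivAt (fun t : ℝ => y + t • p) p 0 := by
      simpa using ((hasDerivAt_id (0 : ℝ)).smul_const p).const_add y
    have h3 := (h1.comp_hasDerivAt 0 h2).clm_apply (hasDerivAt_const (0 : ℝ) p)
    have h4 : HasDerivAt (fun t : ℝ => c * (2 * t)) (c * 2) 0 := by
      simpa using ((hasDerivAt_id (0 : ℝ)).const_mul 2).const_mul c
    have h5 := h3.add h4
    refine HasDerivAt.congr_deriv
      (f := fun t : ℝ => fderiv ℝ ψ (y + t • p) p + c * (2 * t)) h5 ?_
    simp
  have h3 := hmono.deriv_nonneg (x := 0)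
  rw [hd2.deriv] at h3
  unfold hs
  linarith

theorem rank_tens {z ξ : V} (hz : tens z ξ ≠ 0) :
    Matrix.rank (tens z ξ : Matrix (Fin 2) (Fin 2) ℝ) = 1 := by
  have h2 : (tens z ξ : Matrix (Fin 2) (Fin 2) ℝ) = Matrix.vecMulVec z ξ := rfl
  have h3 : Matrix.rank (tens z ξ : Matrix (Fin 2) (Fin 2) ℝ) ≤ 1 := by
    rw [h2]
    exact Matrix.rank_vecMulVec_le _ _
  have h4 : Matrix.rank (tens z ξ : Matrix (Fin 2) (Fin 2) ℝ) ≠ 0 := by
    intro h
    apply hz
    rw [Matrix.rank, Submodule.finrank_eq_zero, LinearMap.range_eq_bot] at h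
    funext i j
    have h5 := congrArg (fun L : (Fin 2 → ℝ) →ₗ[ℝ] (Fin 2 → ℝ) => L (Pi.single j 1) i) h
    simpa using h5
  omega

/-- MD-7 (MROC). -/
theorem mroc : S_MOLL → S_MROC := by
  intro hM T ψ B hT hψ hB hroc ρ ε hρ hε
  -- uniform continuity
  obtain ⟨r, hr0, hr1, hr⟩ : ∃ r : ℝ, 0 < r ∧ r ≤ 1 ∧ ∀ y s : V, (∀ i, |y i| ≤ ρ) →
      (∀ i, |s i| ≤ r) → |ψ (y + s) - ψ y| ≤ ε := by
    have hc := (isCompact_closedBall (0 : V) (ρ + 1)).uniformContinuousOn_of_continuous
      hψ.continuousOn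
    rw [Metric.uniformContinuousOn_iff_le] at hc
    obtain ⟨δ, hδ, h1⟩ := hc ε hε
    refine ⟨min δ 1, by positivity, min_le_right _ _, fun y s hy hs => ?_⟩
    have hyn : ‖y‖ ≤ ρ := (pi_norm_le_iff_of_nonneg hρ.le).2 hy
    have hsn : ‖s‖ ≤ min δ 1 := (pi_norm_le_iff_of_nonneg (by positivity)).2 hs
    have h2 := h1 (y + s) (by
      rw [mem_closedBall_zero_iff]
      exact (norm_add_le _ _).trans (add_le_add hyn (hsn.trans (min_le_right _ _)))) y (by
      rw [mem_closedBall_zero_iff]
      linarith) (by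
      rw [dist_eq_norm, add_sub_cancel_left]
      exact hsn.trans (min_le_left _ _))
    rwa [Real.dist_eq] at h2
  obtain ⟨μ, hμ, hμr, hμ0, hμs⟩ := hM r hr0
  have hae : ∀ᵐ s ∂μ, ‖s‖ ≤ r := by
    filter_upwards [hμr] with s hs
    exact (pi_norm_le_iff_of_nonneg hr0.le).2 hs
  have hint : ∀ y : V, Integrable (fun s => ψ (y + s)) μ := by
    intro y
    obtain ⟨C, hC⟩ := ((isCompact_closedBall (0 : V) r).image
      (hψ.comp (continuous_const.add continuous_id) : Continuous fun s => ψ (y + s))).isBounded.subset_closedBall 0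
    refine Integrable.of_bound
      (hψ.comp (continuous_const.add continuous_id)).aestronglyMeasurable C ?_
    filter_upwards [hae] with s hs
    have h1 := hC ⟨s, by simpa using hs, rfl⟩
    simpa using h1
  refine ⟨fun y => ∫ s, ψ (y + s) ∂μ, hμs ψ hψ, ?_, ?_⟩
  · intro y z ξ
    have h1 := hs_nonneg (hμs ψ hψ) y (T (tens z ξ)) (B (tens z ξ) (tens z ξ)) ?_
    · exact h1
    -- convexity
    have hpt : ∀ s : V, ConvexOn ℝ univ fun t : ℝ =>
        ψ (y + t • T (tens z ξ) + s) + B (tens z ξ) (tens z ξ) * t ^ 2 := by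
      intro s
      obtain ⟨F, hF⟩ := hT (y + s)
      by_cases hz : tens z ξ = 0
      · rw [hz]
        simp only [map_zero, smul_zero, add_zero, zero_mul]
        exact convexOn_const _ convex_univ
      refine ⟨convex_univ, fun t₁ _ t₂ _ a b ha hb hab => ?_⟩
      simp only [smul_eq_mul]
      -- use rank-one convexity along `(t₂ - t₁) H`
      by_cases ht : t₂ = t₁
      · subst ht
        have e : a * t₂ + b * t₂ = t₂ := by rw [← add_mul, hab, one_mul]
        rw [e]
        have e2 : a * (ψ (y + t₂ • T (tens z ξ) + s) + B (tens z ξ) (tens z ξ) * t₂ ^ 2) +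
            b * (ψ (y + t₂ • T (tens z ξ) + s) + B (tens z ξ) (tens z ξ) * t₂ ^ 2) =
            (a + b) * (ψ (y + t₂ • T (tens z ξ) + s) + B (tens z ξ) (tens z ξ) * t₂ ^ 2) := by
          ring
        rw [e2, hab, one_mul]
      have hrank2 : Matrix.rank ((t₂ - t₁) • (tens z ξ : Matrix (Fin 2) (Fin 2) ℝ)) = 1 := by
        have h3 : (t₂ - t₁) • (tens z ξ : Matrix (Fin 2) (Fin 2) ℝ) =
            (tens ((t₂ - t₁) • z) ξ : Matrix (Fin 2) (Fin 2) ℝ) := by
          funext r l
          simp only [tens, Pi.smul_apply, smul_eq_mul]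
          exact (mul_assoc _ _ _).symm
        rw [h3]
        apply rank_tens
        intro h4
        apply hz
        have h5 : (t₂ - t₁) • (tens z ξ : E) = 0 := h3.trans h4
        exact (smul_eq_zero.1 h5).resolve_left (sub_ne_zero.2 ht)
      have h2 := hroc (F + t₁ • tens z ξ : E) ((t₂ - t₁) • (tens z ξ : E)) hrank2 b hb (by linarith)
      have ea : a = 1 - b := by linarith
      have e1 : T ((1 - b) • (F + t₁ • tens z ξ : E) + b • ((F + t₁ • tens z ξ : E) +
          (t₂ - t₁) • (tens z ξ : E))) = y + (a * t₁ + b * t₂) • T (tens z ξ) + s := by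
        simp only [map_add, map_smul, hF]
        rw [ea]
        module
      have e2 : T ((F + t₁ • tens z ξ : E)) = y + t₁ • T (tens z ξ) + s := by
        simp only [map_add, map_smul, hF]
        module
      have e3 : T ((F + t₁ • tens z ξ : E) + (t₂ - t₁) • (tens z ξ : E)) =
          y + t₂ • T (tens z ξ) + s := by
        simp only [map_add, map_smul, hF]
        module
      have e4 : ∀ t : ℝ, B (F + t • tens z ξ) (F + t • tens z ξ) = B F F + 2 * t * B F (tens z ξ)
          + t ^ 2 * B (tens z ξ) (tens z ξ) := by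
        intro t
        simp only [map_add, map_smul, _root_.add_apply, FunLike.coe_smul, Pi.smul_apply,
          smul_eq_mul]
        rw [hB (tens z ξ) F]
        ring
      have e5 : ((1 - b) • (F + t₁ • tens z ξ : E) + b • ((F + t₁ • tens z ξ : E) +
          (t₂ - t₁) • (tens z ξ : E))) = F + (a * t₁ + b * t₂) • tens z ξ := by
        rw [ea]
        module
      have e6 : ((F + t₁ • tens z ξ : E) + (t₂ - t₁) • (tens z ξ : E)) = F + t₂ • tens z ξ := by
        module
      have h3 : ψ (y + (a * t₁ + b * t₂) • T (tens z ξ) + s) +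
          B (F + (a * t₁ + b * t₂) • tens z ξ) (F + (a * t₁ + b * t₂) • tens z ξ) ≤
          (1 - b) * (ψ (y + t₁ • T (tens z ξ) + s) + B (F + t₁ • tens z ξ) (F + t₁ • tens z ξ)) +
          b * (ψ (y + t₂ • T (tens z ξ) + s) + B (F + t₂ • tens z ξ) (F + t₂ • tens z ξ)) := by
        rw [← e1, ← e2, ← e3, ← e5, ← e6]
        exact h2
      rw [e4, e4, e4] at h3
      rw [ea] at h3 ⊢
      nlinarith
    refine ⟨convex_univ, fun t₁ _ t₂ _ a b ha hb hab => ?_⟩
    simp only [smul_eq_mul]
    have h2 : ∫ s, (ψ (y + (a * t₁ + b * t₂) • T (tens z ξ) + s)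
        + B (tens z ξ) (tens z ξ) * (a * t₁ + b * t₂) ^ 2) ∂μ ≤
        ∫ s, (a * (ψ (y + t₁ • T (tens z ξ) + s) + B (tens z ξ) (tens z ξ) * t₁ ^ 2)
        + b * (ψ (y + t₂ • T (tens z ξ) + s) + B (tens z ξ) (tens z ξ) * t₂ ^ 2)) ∂μ := by
      refine integral_mono ((hint _).add (integrable_const _))
        ((((hint _).add (integrable_const _)).const_mul a).add
          (((hint _).add (integrable_const _)).const_mul b)) fun s => ?_
      have h3 := (hpt s).2 (mem_univ t₁) (mem_univ t₂) ha hb hab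
      simpa only [smul_eq_mul] using h3
    have i1 : ∀ (y' : V) (k : ℝ), ∫ s, (ψ (y' + s) + k) ∂μ = (∫ s, ψ (y' + s) ∂μ) + k := by
      intro y' k
      rw [integral_add (hint y') (integrable_const _)]
      simp
    have i2 : ∫ s, (a * (ψ (y + t₁ • T (tens z ξ) + s) + B (tens z ξ) (tens z ξ) * t₁ ^ 2)
        + b * (ψ (y + t₂ • T (tens z ξ) + s) + B (tens z ξ) (tens z ξ) * t₂ ^ 2)) ∂μ =
        a * ∫ s, (ψ (y + t₁ • T (tens z ξ) + s) + B (tens z ξ) (tens z ξ) * t₁ ^ 2) ∂μ
        + b * ∫ s, (ψ (y + t₂ • T (tens z ξ) + s) + B (tens z ξ) (tens z ξ) * t₂ ^ 2) ∂μ := by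
      rw [← integral_const_mul, ← integral_const_mul]
      exact integral_add (((hint _).add (integrable_const _)).const_mul a)
          (((hint _).add (integrable_const _)).const_mul b)
    rw [i2, i1, i1, i1] at h2
    exact h2
  · intro y hy
    have h1 : (∫ s, ψ (y + s) ∂μ) - ψ y = ∫ s, (ψ (y + s) - ψ y) ∂μ := by
      rw [integral_sub (hint y) (integrable_const _)]
      simp
    rw [h1]
    have h2 := norm_integral_le_of_norm_le_const (μ := μ) (f := fun s => ψ (y + s) - ψ y)
      (C := ε) (by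
        filter_upwards [hμr] with s hs
        exact hr y s hy hs)
    simpa using h2

end Pool.Agent.Q53.MD
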